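import Mathlib
import Pool.Agent.V11179.AGLDefs
import Pool.Agent.V11179.AGLVan

/-!
# Vanishing of exact-stabilizer counts for AGL(1, F_q) in characteristic 2

Affirmative answer to the question of MP_3242d6_co: in characteristic 2, for `3 ≤ k ≤ q / 2` and
`k ≡ 0` or `|H|` modulo `d |H|`, the number `N(S_{d,H}, k)` can vanish only if `k` is a power
of 2.
-/

namespace Pool.Agent.Results.MP_3242d6_co.PowerOfTwo

open Pool.Agent.V11179.AGL

theorem result :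
    ∀ (K : Type) [Field K] [Finite K] [CharP K 2] (d k : ℕ) (H : AddSubgroup K),
    d ∣ Nat.card K - 1 → (∀ ζ : K, ζ ^ d = 1 → ∀ h ∈ H, ζ * h ∈ H) →
    3 ≤ k → 2 * k ≤ Nat.card K →
    (k ≡ 0 [MOD d * Nat.card H] ∨ k ≡ Nat.card H [MOD d * Nat.card H]) →
    stabCount K d H k = 0 → ∃ n : ℕ, k = 2 ^ n := by
  intro K _ _ _ d k H hd hH hk3 hkq hmod hN
  have := Fintype.ofFinite K
  rw [stabCount_eq_zero_iff] at hN
  rw [Nat.card_eq_fintype_card] at hd hkq
  rw [← card_Hf H] at hmod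
  have hc := (classification Nat.prime_two hd hH hk3 hkq hmod).1 hN
  rw [card_Hf H] at hc
  have : Fact (Nat.Prime 2) := ⟨Nat.prime_two⟩
  obtain ⟨a, -, ha⟩ := FiniteField.card K 2
  have hdvd : Nat.card H ∣ 2 ^ (a : ℕ) := by
    rw [← ha, ← Nat.card_eq_fintype_card (α := K)]
    exact AddSubgroup.card_addSubgroup_dvd_card H
  obtain ⟨b, -, hb⟩ := (Nat.dvd_prime_pow Nat.prime_two).1 hdvd
  rw [hb] at hc
  rcases hc with ⟨h1, -⟩ | ⟨h1, -⟩ | ⟨s, -, -, h1⟩ | ⟨h1, -, -⟩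
  · exact ⟨b, h1⟩
  · exact ⟨b + 1, by rw [h1, pow_succ]; ring⟩
  · exact ⟨s + b, by rw [h1, pow_add]⟩
  · exfalso
    have h2 : 7 ∣ 2 ^ (a : ℕ) := by
      rw [← ha, h1]
      exact dvd_mul_right _ _
    have h3 := (by norm_num : Nat.Prime 7).dvd_of_dvd_pow h2
    revert h3
    decide

end Pool.Agent.Results.MP_3242d6_co.PowerOfTwo
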